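import Pool.Agent.H82.SZ2.Defs

/-!
# MP_103a5c SimpleZeros v2, block JC: the trivial bound to the right

On `Re w = x ∈ [1, 2]` we have `Re s ≥ 3/2` for `s = 1/2 + w`, hence `|ζ(s)| ≤ z`, `|M(s)| ≤ B z`, `z = Σ n^(-3/2)`, and
`|exp((w - iT)² L / (2T²))|² = exp((x² - (t-T)²) L / T²) ≤ e⁴ exp(-(t-T)² L/T²)`.
-/

set_option autoImplicit false

open Finset Filter Topology MeasureTheory
open scoped ArithmeticFunction.vonMangoldt ArithmeticFunction.Moebius ArithmeticFunction.zeta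

namespace H82SZ

open Pool.Agent.H53.SZC (ln SD ln_re ln_im)

/-- `Σ n^(-3/2)` -/
noncomputable def zth : ℝ := ∑' n : ℕ, 1 / (n : ℝ) ^ (3 / 2 : ℝ)

lemma zth_summable : Summable fun n : ℕ => 1 / (n : ℝ) ^ (3 / 2 : ℝ) :=
  Real.summable_one_div_nat_rpow.2 (by norm_num)

lemma zth_nonneg : 0 ≤ zth := tsum_nonneg fun n => by positivity

lemma norm_npow_le {n : ℕ} (hn : 1 ≤ n) {s : ℂ} (hs : 3 / 2 ≤ s.re) :
    ‖(n : ℂ) ^ (-s)‖ ≤ 1 / (n : ℝ) ^ (3 / 2 : ℝ) := by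
  have hn0 : (0 : ℝ) < n := by exact_mod_cast hn
  have hn1 : (1 : ℝ) ≤ n := by exact_mod_cast hn
  have e : ‖(n : ℂ) ^ (-s)‖ = (n : ℝ) ^ (-s).re := by
    rw [← Complex.ofReal_natCast, Complex.norm_cpow_eq_rpow_re_of_pos hn0]
  rw [e, Complex.neg_re, Real.rpow_neg hn0.le, one_div]
  exact inv_anti₀ (Real.rpow_pos_of_pos hn0 _) (Real.rpow_le_rpow_of_exponent_le hn1 hs)

lemma norm_zeta_le {s : ℂ} (hs : 3 / 2 ≤ s.re) : ‖riemannZeta s‖ ≤ zth := by
  have h1 : 1 < s.re := by linarith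
  rw [zeta_eq_tsum_one_div_nat_cpow h1]
  refine tsum_of_norm_bounded zth_summable.hasSum fun n => ?_
  rcases Nat.eq_zero_or_pos n with h | h
  · subst h
    have hs0 : s ≠ 0 := by
      intro h0
      rw [h0] at h1
      simp at h1
      linarith
    simp [Complex.zero_cpow hs0]
  · have := norm_npow_le h hs
    rwa [Complex.cpow_neg, ← one_div] at this

lemma norm_dpol_le {P : ℝ → ℝ} {B : ℝ} (hB : ∀ v, |P v| ≤ B) (T : ℝ) {s : ℂ} (hs : 3 / 2 ≤ s.re) :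
    ‖dpol T (xk P T) s‖ ≤ B * zth := by
  have hB0 : 0 ≤ B := (abs_nonneg _).trans (hB 0)
  unfold dpol
  calc ‖∑ n ∈ Icc 1 (NT T), ((xk P T n : ℝ) : ℂ) * (n : ℂ) ^ (-s)‖
      ≤ ∑ n ∈ Icc 1 (NT T), ‖((xk P T n : ℝ) : ℂ) * (n : ℂ) ^ (-s)‖ := norm_sum_le _ _
    _ ≤ ∑ n ∈ Icc 1 (NT T), B * (1 / (n : ℝ) ^ (3 / 2 : ℝ)) := by
        refine Finset.sum_le_sum fun n hn => ?_
        rw [norm_mul, Complex.norm_real, Real.norm_eq_abs]
        exact mul_le_mul (abs_xk_le hB T n) (norm_npow_le (Finset.mem_Icc.1 hn).1 hs) (norm_nonneg _) hB0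
    _ = B * ∑ n ∈ Icc 1 (NT T), (1 / (n : ℝ) ^ (3 / 2 : ℝ)) := by rw [Finset.mul_sum]
    _ ≤ B * zth := by
        refine mul_le_mul_of_nonneg_left ?_ hB0
        exact zth_summable.sum_le_tsum _ fun n _ => by positivity

/-- the Gaussian on the line -/
lemma norm_exp_ln (T x t : ℝ) : ‖Complex.exp ((ln x t - T * Complex.I) ^ 2 * (Real.log T : ℂ) / (2 * (T : ℂ) ^ 2))‖ ^ 2 =
    Real.exp (x ^ 2 * (Real.log T / T ^ 2)) * Real.exp (-(Real.log T / T ^ 2) * (t - T) ^ 2) := by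
  have e1 : (ln x t - T * Complex.I) ^ 2 * (Real.log T : ℂ) / (2 * (T : ℂ) ^ 2) =
      (((x ^ 2 - (t - T) ^ 2) * (Real.log T / T ^ 2) / 2 : ℝ) : ℂ) +
        ((2 * x * (t - T) * (Real.log T / T ^ 2) / 2 : ℝ) : ℂ) * Complex.I := by
    unfold Pool.Agent.H53.SZC.ln
    rcases eq_or_ne T 0 with h | h
    · subst h; simp
    have hT : (T : ℂ) ≠ 0 := by exact_mod_cast h
    push_cast
    field_simp
    ring_nf
    rw [Complex.I_sq]
    ring
  rw [e1, Complex.norm_exp]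
  have e2 : ((((x ^ 2 - (t - T) ^ 2) * (Real.log T / T ^ 2) / 2 : ℝ) : ℂ) +
        ((2 * x * (t - T) * (Real.log T / T ^ 2) / 2 : ℝ) : ℂ) * Complex.I).re = (x ^ 2 - (t - T) ^ 2) * (Real.log T / T ^ 2) / 2 := by
    simp only [Complex.add_re, Complex.mul_re, Complex.ofReal_re, Complex.ofReal_im, Complex.I_re, Complex.I_im]
    ring
  rw [e2, ← Real.exp_nat_mul, ← Real.exp_add]
  congr 1
  push_cast
  ring

lemma integral_gauss_shift {b : ℝ} (T : ℝ) : ∫ t : ℝ, Real.exp (-b * (t - T) ^ 2) = Real.sqrt (Real.pi / b) := by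
  rw [integral_sub_right_eq_self (fun t : ℝ => Real.exp (-b * t ^ 2)) T]
  exact integral_gaussian b

lemma integrable_gauss_shift {b : ℝ} (hb : 0 < b) (T : ℝ) : Integrable fun t : ℝ => Real.exp (-b * (t - T) ^ 2) :=
  (integrable_exp_neg_mul_sq hb).comp_sub_right T

lemma sqrt_gauss {T : ℝ} (hT : 1 < T) : Real.sqrt (Real.pi / (Real.log T / T ^ 2)) = 2 * Real.pi * om T := by
  have hl := Real.log_pos hT
  have hT0 : 0 < T := by linarith
  have hp := Real.pi_pos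
  have h1 : Real.pi / (Real.log T / T ^ 2) = (T * Real.sqrt Real.pi / Real.sqrt (Real.log T)) ^ 2 := by
    rw [div_pow, mul_pow, Real.sq_sqrt hp.le, Real.sq_sqrt hl.le]
    field_simp
  rw [h1, Real.sqrt_sq (by positivity)]
  unfold om
  have h2 : Real.sqrt Real.pi * Real.sqrt Real.pi = Real.pi := Real.mul_self_sqrt hp.le
  have h3 : 0 < Real.sqrt Real.pi := Real.sqrt_pos.2 hp
  have h4 : 0 < Real.sqrt (Real.log T) := Real.sqrt_pos.2 hl
  rw [eq_comm]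
  calc 2 * Real.pi * (T / (2 * Real.sqrt Real.pi * Real.sqrt (Real.log T)))
      = 2 * (Real.sqrt Real.pi * Real.sqrt Real.pi) * (T / (2 * Real.sqrt Real.pi * Real.sqrt (Real.log T))) := by rw [h2]
    _ = T * Real.sqrt Real.pi / Real.sqrt (Real.log T) := by field_simp

/-- the pointwise bound -/
lemma norm_fz_le {P : ℝ → ℝ} {B : ℝ} (hB : ∀ v, |P v| ≤ B) {T : ℝ} (hT : 1 ≤ T) {x : ℝ} (h1 : 1 ≤ x) (h2 : x ≤ 2) (t : ℝ) :
    ‖fz P T (ln x t)‖ ^ 2 ≤ (zth * (B * zth)) ^ 2 * Real.exp 4 * Real.exp (-(Real.log T / T ^ 2) * (t - T) ^ 2) := by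
  have hB0 : 0 ≤ B := (abs_nonneg _).trans (hB 0)
  have hz := zth_nonneg
  set w := ln x t with hw
  have hwre : w.re = x := ln_re x t
  have hs : 3 / 2 ≤ (1 / 2 + w : ℂ).re := by
    have : (1 / 2 + w : ℂ).re = 1 / 2 + x := by
      rw [Complex.add_re, hwre]; norm_num
    rw [this]; linarith
  have hs1 : (1 / 2 + w : ℂ) ≠ 1 := by
    intro h
    rw [h] at hs
    norm_num at hs
  -- the quotient
  have hq : ‖Pool.Agent.H17.ZB.Z (1 / 2 + w) / (3 / 2 + w)‖ ≤ zth := by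
    rw [Pool.Agent.H17.ZB.Z_of_ne hs1, norm_div, norm_mul]
    have h3 : ‖(1 / 2 + w : ℂ) - 1‖ ≤ ‖(3 / 2 + w : ℂ)‖ := by
      have e1 : (1 / 2 + w : ℂ) - 1 = w - 1 / 2 := by ring
      rw [e1]
      have a1 : ‖w - 1 / 2‖ ^ 2 ≤ ‖(3 / 2 + w : ℂ)‖ ^ 2 := by
        rw [← Complex.normSq_eq_norm_sq, ← Complex.normSq_eq_norm_sq, Complex.normSq_apply, Complex.normSq_apply]
        have b1 : (w - 1 / 2).re = x - 1 / 2 := by rw [Complex.sub_re, hwre]; norm_num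
        have b2 : (w - 1 / 2).im = w.im := by rw [Complex.sub_im]; norm_num
        have b3 : (3 / 2 + w).re = 3 / 2 + x := by rw [Complex.add_re, hwre]; norm_num
        have b4 : (3 / 2 + w).im = w.im := by rw [Complex.add_im]; norm_num
        rw [b1, b2, b3, b4]
        nlinarith
      exact le_of_sq_le_sq a1 (norm_nonneg _)
    have h4 : 0 < ‖(3 / 2 + w : ℂ)‖ := by
      rw [norm_pos_iff]
      intro h
      have := congrArg Complex.re h
      rw [Complex.add_re, hwre] at this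
      norm_num at this
      linarith
    rw [div_le_iff₀ h4]
    calc ‖(1 / 2 + w : ℂ) - 1‖ * ‖riemannZeta (1 / 2 + w)‖ ≤ ‖(3 / 2 + w : ℂ)‖ * zth :=
          mul_le_mul h3 (norm_zeta_le hs) (norm_nonneg _) (norm_nonneg _)
      _ = zth * ‖(3 / 2 + w : ℂ)‖ := mul_comm _ _
  have hd := norm_dpol_le hB T hs
  have e : ‖fz P T w‖ ^ 2 = (‖Pool.Agent.H17.ZB.Z (1 / 2 + w) / (3 / 2 + w)‖ * ‖dpol T (xk P T) (1 / 2 + w)‖) ^ 2 *
      ‖Complex.exp ((w - T * Complex.I) ^ 2 * (Real.log T : ℂ) / (2 * (T : ℂ) ^ 2))‖ ^ 2 := by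
    unfold fz
    rw [norm_mul, norm_mul, mul_pow]
  rw [e, hw, norm_exp_ln]
  have g1 : (‖Pool.Agent.H17.ZB.Z (1 / 2 + ln x t) / (3 / 2 + ln x t)‖ * ‖dpol T (xk P T) (1 / 2 + ln x t)‖) ^ 2 ≤
      (zth * (B * zth)) ^ 2 :=
    pow_le_pow_left₀ (by positivity) (mul_le_mul hq hd (norm_nonneg _) hz) 2
  have g2 : Real.exp (x ^ 2 * (Real.log T / T ^ 2)) ≤ Real.exp 4 := by
    rw [Real.exp_le_exp]
    have hl : 0 ≤ Real.log T := Real.log_nonneg hT
    have a1 : Real.log T / T ^ 2 ≤ 1 := by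
      rw [div_le_one (by positivity)]
      have := Real.log_le_sub_one_of_pos (by linarith : 0 < T)
      nlinarith
    have a2 : 0 ≤ Real.log T / T ^ 2 := by positivity
    have a3 : x ^ 2 ≤ 4 := by nlinarith
    nlinarith [sq_nonneg x]
  calc (‖Pool.Agent.H17.ZB.Z (1 / 2 + ln x t) / (3 / 2 + ln x t)‖ * ‖dpol T (xk P T) (1 / 2 + ln x t)‖) ^ 2 *
        (Real.exp (x ^ 2 * (Real.log T / T ^ 2)) * Real.exp (-(Real.log T / T ^ 2) * (t - T) ^ 2))
      ≤ (zth * (B * zth)) ^ 2 * (Real.exp 4 * Real.exp (-(Real.log T / T ^ 2) * (t - T) ^ 2)) := by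
        refine mul_le_mul g1 (mul_le_mul_of_nonneg_right g2 (Real.exp_pos _).le) (by positivity) (by positivity)
    _ = _ := by ring

/-- JC -/
theorem jc : JCstat := by
  intro ε P hε hε2 hP
  obtain ⟨B, hB1, hB⟩ := hP.bdd
  have hz := zth_nonneg
  refine ⟨(zth * (B * zth)) ^ 2 * Real.exp 4 * (2 * Real.pi), 2, by positivity, fun T hT x h1 h2 => ?_⟩
  have hT1 : 1 < T := by linarith
  have hl := Real.log_pos hT1
  have hb : 0 < Real.log T / T ^ 2 := by positivity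
  unfold J2
  calc ∫ t : ℝ, ‖fz P T (ln x t)‖ ^ 2
      ≤ ∫ t : ℝ, (zth * (B * zth)) ^ 2 * Real.exp 4 * Real.exp (-(Real.log T / T ^ 2) * (t - T) ^ 2) :=
        integral_mono_of_nonneg (Filter.Eventually.of_forall fun t => by positivity)
          ((integrable_gauss_shift hb T).const_mul _)
          (Filter.Eventually.of_forall fun t => norm_fz_le hB hT1.le h1 h2 t)
    _ = (zth * (B * zth)) ^ 2 * Real.exp 4 * (2 * Real.pi * om T) := by
        rw [integral_const_mul, integral_gauss_shift, sqrt_gauss hT1]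
    _ = _ := by ring

end H82SZ
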