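import Pool.Agent.H82.SZ2.Defs

/-!
# MP_103a5c SimpleZeros v2, block JD: the mean square on `Re w = 1/L`

`x_i = 2^i / L`, `2^n / L ∈ [1, 2]`; downward induction with `J2(x_i)² ≤ J2(0) J2(2 x_i)`.
-/

set_option autoImplicit false

open Finset Filter Topology MeasureTheory

namespace H82SZ

open Pool.Agent.H53.SZC (ln SD)

lemma J2_nonneg (f : ℂ → ℂ) (x : ℝ) : 0 ≤ J2 f x := integral_nonneg fun _ => by positivity

/-- JD -/
theorem jd (h0 : I0stat) (hA : JAstat) (hB : JBstat) (hC : JCstat) : JDstat := by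
  intro ε P hε hε2 hP
  obtain ⟨C0, T0, hC0, k0⟩ := h0 ε P hε hε2 hP
  obtain ⟨C1, T1, hC1, k1⟩ := hC ε P hε hε2 hP
  refine ⟨max C0 C1, max (max T0 T1) 3, le_max_of_le_left hC0, fun T hT => ?_⟩
  have b0 : T0 ≤ T := ((le_max_left _ _).trans (le_max_left _ _)).trans hT
  have b1 : T1 ≤ T := ((le_max_right _ _).trans (le_max_left _ _)).trans hT
  have b3 : 3 ≤ T := (le_max_right _ _).trans hT
  have hl1 : 1 ≤ Real.log T := by
    rw [Real.le_log_iff_exp_le (by linarith)]
    have := Real.exp_one_lt_d9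
    linarith
  set L := Real.log T with hL
  have hl : 0 < L := by linarith
  have ho := om_pos (T := T) (by linarith)
  obtain ⟨K, hK⟩ := hA P T (by linarith)
  set J := J2 (fz P T) with hJ
  have hJ0 : J 0 ≤ max C0 C1 * om T := (k0 T b0).trans (mul_le_mul_of_nonneg_right (le_max_left _ _) ho.le)
  have hCo : 0 ≤ max C0 C1 * om T := mul_nonneg (le_max_of_le_left hC0) ho.le
  -- the step
  have step : ∀ x : ℝ, 0 < x → 2 * x ≤ 2 → J (2 * x) ≤ max C0 C1 * om T → J x ≤ max C0 C1 * om T := by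
    intro x hx hx2 hJ2
    have h1 := hB 0 (2 * x) K (fz P T) (by linarith) (hK.sub (by norm_num) hx2)
    have e : (0 + 2 * x) / 2 = x := by ring
    rw [e] at h1
    have h2 : J x ^ 2 ≤ (max C0 C1 * om T) ^ 2 := by
      calc J x ^ 2 ≤ J 0 * J (2 * x) := h1
        _ ≤ (max C0 C1 * om T) * (max C0 C1 * om T) :=
            mul_le_mul hJ0 hJ2 (J2_nonneg _ _) hCo
        _ = _ := by ring
    exact le_of_sq_le_sq h2 hCo
  -- the number of steps
  obtain ⟨n, hn1, hn2⟩ : ∃ n : ℕ, L ≤ 2 ^ n ∧ (2 : ℝ) ^ n ≤ 2 * L := by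
    obtain ⟨m, h1, h2⟩ := exists_nat_pow_near (x := L) (y := 2) hl1 (by norm_num)
    exact ⟨m + 1, h2.le, by rw [pow_succ]; linarith⟩
  have key : ∀ i : ℕ, i ≤ n → J (2 ^ (n - i) / L) ≤ max C0 C1 * om T := by
    intro i
    induction i with
    | zero =>
      intro _
      rw [Nat.sub_zero]
      refine (k1 T b1 _ ?_ ?_).trans (mul_le_mul_of_nonneg_right (le_max_right _ _) ho.le)
      · rw [le_div_iff₀ hl]; linarith
      · rw [div_le_iff₀ hl]; exact hn2
    | succ i ih =>
      intro hi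
      have h1 := ih (by omega)
      have e : n - i = (n - (i + 1)) + 1 := by omega
      have e2 : (2 : ℝ) ^ (n - i) / L = 2 * (2 ^ (n - (i + 1)) / L) := by
        rw [e, pow_succ]; ring
      rw [e2] at h1
      refine step _ (by positivity) ?_ h1
      rw [← e2, div_le_iff₀ hl]
      refine le_trans ?_ hn2
      exact pow_le_pow_right₀ (by norm_num) (Nat.sub_le _ _)
  have := key n le_rfl
  rwa [Nat.sub_self, pow_zero] at this

end H82SZ
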